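import Pool.Agent.GEN.StmtsZ

/-!
# Squad GEN, row PRD (helper67): the product formula
-/

set_option autoImplicit false

namespace Pool.Agent.GEN.H67

open Finset

section

variable {ι B : Type} [Fintype ι] [CommRing B]

open scoped Classical in
/-- the weight of a set -/
noncomputable def wt (y : ι → B) (I : Finset ι) : B :=
  (∏ α ∈ I, (1 - y α)) * ∏ α ∈ univ \ I, y α

/-- the weighted sum of a function -/
noncomputable def FF (y : ι → B) (z : Finset ι → B) : B := ∑ I : Finset ι, z I * wt y I

open scoped Classical in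
theorem sum_dec (D : Finset ι) (g : Finset ι → B) : ∑ I : Finset ι, g I =
    ∑ I0 ∈ (univ \ D).powerset, ∑ I1 ∈ D.powerset, g (I0 ∪ I1) := by
  rw [← Finset.sum_product' (univ \ D).powerset D.powerset (fun I0 I1 => g (I0 ∪ I1))]
  refine Finset.sum_nbij' (fun I => (I \ D, I ∩ D)) (fun p => p.1 ∪ p.2) ?_ ?_ ?_ ?_ ?_
  · intro I _
    rw [mem_product, mem_powerset, mem_powerset]
    exact ⟨sdiff_subset_sdiff (subset_univ _) (Subset.refl _), inter_subset_right⟩
  · intro p _
    exact mem_univ _
  · intro I _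
    exact sdiff_union_inter I D
  · intro p hp
    rw [mem_product, mem_powerset, mem_powerset] at hp
    obtain ⟨h0, h1⟩ := hp
    refine Prod.ext ?_ ?_
    · ext α
      have h0' := @h0 α
      have h1' := @h1 α
      simp only [mem_sdiff, mem_univ, true_and] at h0'
      simp only [mem_sdiff, mem_union]
      tauto
    · ext α
      have h0' := @h0 α
      have h1' := @h1 α
      simp only [mem_sdiff, mem_univ, true_and] at h0'
      simp only [mem_inter, mem_union]
      tauto
  · intro I _
    rw [sdiff_union_inter I D]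

open scoped Classical in
theorem wt_union (y : ι → B) (D I0 I1 : Finset ι) (h0 : I0 ⊆ univ \ D) (h1 : I1 ⊆ D) :
    wt y (I0 ∪ I1) = ((∏ α ∈ I0, (1 - y α)) * ∏ α ∈ (univ \ D) \ I0, y α) *
      ((∏ α ∈ I1, (1 - y α)) * ∏ α ∈ D \ I1, y α) := by
  have hd : Disjoint I0 I1 := disjoint_of_subset_left h0 (disjoint_of_subset_right h1
    sdiff_disjoint)
  have e1 : univ \ (I0 ∪ I1) = ((univ \ D) \ I0) ∪ (D \ I1) := by
    ext α
    have h0' := @h0 α
    have h1' := @h1 α
    simp only [mem_sdiff, mem_univ, true_and] at h0'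
    simp only [mem_sdiff, mem_union, mem_univ, true_and]
    tauto
  have hd2 : Disjoint ((univ \ D) \ I0) (D \ I1) := by
    rw [Finset.disjoint_left]
    intro α ha hb
    rw [mem_sdiff, mem_sdiff] at ha
    rw [mem_sdiff] at hb
    exact ha.1.2 hb.1
  unfold wt
  rw [prod_union hd, e1, prod_union hd2]
  ring

open scoped Classical in
theorem step (y : ι → B) (D : Finset ι) (X : B) (hX : ∏ α ∈ D, y α = X) (z : Finset ι → B) :
    (1 - X) * FF y z =
      FF y (fun I => if ∃ α ∈ I, α ∈ D then (1 - X) * z I + X * z (I \ D) else 0) := by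
  unfold FF
  rw [sum_dec D, sum_dec D, mul_sum]
  apply sum_congr rfl
  intro I0 h0
  rw [mem_powerset] at h0
  have h0' : ∀ α ∈ I0, α ∉ D := fun α ha => (mem_sdiff.1 (h0 ha)).2
  have hone : ∑ I1 ∈ D.powerset, ((∏ α ∈ I1, (1 - y α)) * ∏ α ∈ D \ I1, y α) = 1 := by
    rw [← prod_add]
    apply prod_eq_one
    intro α _
    ring
  obtain ⟨W, hW⟩ : ∃ W : B, W = (∏ α ∈ I0, (1 - y α)) * ∏ α ∈ (univ \ D) \ I0, y α := ⟨_, rfl⟩
  obtain ⟨w, hw⟩ : ∃ w : Finset ι → B, w = fun I1 => (∏ α ∈ I1, (1 - y α)) * ∏ α ∈ D \ I1, y α :=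
    ⟨_, rfl⟩
  have hone' : ∑ I1 ∈ D.powerset, w I1 = 1 := by rw [hw]; exact hone
  have hw0 : w ∅ = X := by rw [hw, ← hX]; simp
  have hu : ∀ I1 ∈ D.powerset, wt y (I0 ∪ I1) = W * w I1 := by
    intro I1 h1
    rw [mem_powerset] at h1
    rw [wt_union y D I0 I1 h0 h1, hW, hw]
  have hR : ∀ I1 ∈ D.powerset,
      (if ∃ α ∈ I0 ∪ I1, α ∈ D then (1 - X) * z (I0 ∪ I1) + X * z ((I0 ∪ I1) \ D) else 0) *
        wt y (I0 ∪ I1) =
      W * ((1 - X) * (z (I0 ∪ I1) * w I1) + X * z I0 * w I1 -
        if I1 = ∅ then ((1 - X) * z I0 + X * z I0) * X else 0) := by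
    intro I1 h1
    rw [hu I1 h1]
    rw [mem_powerset] at h1
    have e1 : (I0 ∪ I1) \ D = I0 := by
      ext α
      have h2 := h0' α
      have h1' := @h1 α
      simp only [mem_sdiff, mem_union]
      tauto
    by_cases hI : I1 = ∅
    · subst hI
      have h2 : ¬ ∃ α ∈ I0 ∪ ∅, α ∈ D := by
        rintro ⟨α, ha, hb⟩
        rw [union_empty] at ha
        exact h0' α ha hb
      rw [if_neg h2, if_pos rfl, union_empty, hw0]
      ring
    · obtain ⟨α, ha⟩ := Finset.nonempty_iff_ne_empty.2 hI
      rw [if_pos ⟨α, mem_union_right _ ha, h1 ha⟩, if_neg hI, e1]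
      ring
  rw [sum_congr rfl hR, ← mul_sum, sum_sub_distrib, sum_add_distrib, ← mul_sum, ← mul_sum, hone',
    Finset.sum_ite_eq' D.powerset ∅, if_pos (empty_mem_powerset D)]
  have hL : ∑ I1 ∈ D.powerset, z (I0 ∪ I1) * wt y (I0 ∪ I1) =
      W * ∑ I1 ∈ D.powerset, z (I0 ∪ I1) * w I1 := by
    rw [mul_sum]
    apply sum_congr rfl
    intro I1 h1
    rw [hu I1 h1]
    ring
  rw [hL]
  ring

end

open scoped Classical in
theorem iter {ι κ B : Type} [Fintype ι] [CommRing B] (X : B) (blk : ι → Option κ) (y : ι → B)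
    (K : Finset κ) :
    (∀ j ∈ K, ∏ α ∈ univ.filter (fun α => blk α = some j), y α = X) →
    ∀ z : Finset ι → B, (1 - X) ^ K.card * FF y z =
      FF y (fun I => if (∀ j ∈ K, ∃ α ∈ I, blk α = some j) then
        ∑ K' ∈ K.powerset, (1 - X) ^ K'.card * X ^ (K.card - K'.card) *
          z (I.filter fun α => ∀ j ∈ K, j ∉ K' → blk α ≠ some j) else 0) := by
  induction K using Finset.induction_on with
  | empty =>
    intro _ z
    simp
  | insert j K hj ih =>
    intro hX z
    have h1 := step y (univ.filter (fun α => blk α = some j)) X (hX j (mem_insert_self _ _)) z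
    have h2 := ih (fun i hi => hX i (mem_insert_of_mem hi))
      (fun I => if ∃ α ∈ I, α ∈ univ.filter (fun α => blk α = some j) then
        (1 - X) * z I + X * z (I \ univ.filter (fun α => blk α = some j)) else 0)
    rw [card_insert_of_notMem hj, pow_succ, mul_assoc, h1, h2]
    congr 1
    funext I
    by_cases hK : ∀ i ∈ K, ∃ α ∈ I, blk α = some i
    · rw [if_pos hK]
      by_cases hI : ∃ α ∈ I, blk α = some j
      · have h3 : ∀ i ∈ insert j K, ∃ α ∈ I, blk α = some i := by
          intro i hi
          rcases mem_insert.1 hi with h | h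
          · rw [h]; exact hI
          · exact hK i h
        rw [if_pos h3, Finset.sum_powerset_insert hj, ← sum_add_distrib]
        apply sum_congr rfl
        intro K' hK'
        rw [mem_powerset] at hK'
        have hjK' : j ∉ K' := fun h => hj (hK' h)
        have hc : K'.card ≤ K.card := card_le_card hK'
        have h4 : ∃ α ∈ I.filter (fun α => ∀ i ∈ K, i ∉ K' → blk α ≠ some i),
            α ∈ univ.filter (fun α => blk α = some j) := by
          obtain ⟨α, ha, hb⟩ := hI
          refine ⟨α, mem_filter.2 ⟨ha, fun i hi _ h => ?_⟩, mem_filter.2 ⟨mem_univ _, hb⟩⟩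
          rw [hb] at h
          exact hj (Option.some.inj h ▸ hi)
        rw [if_pos h4, card_insert_of_notMem hjK']
        have e1 : (I.filter fun α => ∀ i ∈ K, i ∉ K' → blk α ≠ some i) \
            univ.filter (fun α => blk α = some j) =
            I.filter fun α => ∀ i ∈ insert j K, i ∉ K' → blk α ≠ some i := by
          ext α
          simp only [mem_sdiff, mem_filter, mem_univ, true_and, mem_insert]
          constructor
          · rintro ⟨⟨h5, h6⟩, h7⟩
            refine ⟨h5, fun i hi hiK => ?_⟩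
            rcases hi with h | h
            · rw [h]; exact h7
            · exact h6 i h hiK
          · rintro ⟨h5, h6⟩
            exact ⟨⟨h5, fun i hi hiK => h6 i (Or.inr hi) hiK⟩, h6 j (Or.inl rfl) hjK'⟩
        have e2 : (I.filter fun α => ∀ i ∈ insert j K, i ∉ insert j K' → blk α ≠ some i) =
            I.filter fun α => ∀ i ∈ K, i ∉ K' → blk α ≠ some i := by
          ext α
          simp only [mem_filter, mem_insert]
          constructor
          · rintro ⟨h5, h6⟩
            refine ⟨h5, fun i hi hiK => h6 i (Or.inr hi) ?_⟩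
            rintro (h | h)
            · exact hj (h ▸ hi)
            · exact hiK h
          · rintro ⟨h5, h6⟩
            refine ⟨h5, fun i hi hiK => ?_⟩
            rcases hi with h | h
            · exact absurd (Or.inl h) hiK
            · exact h6 i h (fun h8 => hiK (Or.inr h8))
        rw [e1, e2]
        have e3 : K.card + 1 - K'.card = (K.card - K'.card) + 1 := by omega
        have e4 : K.card + 1 - (K'.card + 1) = K.card - K'.card := by omega
        rw [e3, e4, pow_succ, pow_succ]
        ring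
      · have h3 : ¬ ∀ i ∈ insert j K, ∃ α ∈ I, blk α = some i :=
          fun h => hI (h j (mem_insert_self _ _))
        rw [if_neg h3]
        apply sum_eq_zero
        intro K' hK'
        rw [if_neg, mul_zero]
        rintro ⟨α, ha, hb⟩
        exact hI ⟨α, (mem_filter.1 ha).1, (mem_filter.1 hb).2⟩
    · rw [if_neg hK, if_neg]
      exact fun h => hK fun i hi => h i (mem_insert_of_mem hi)

open scoped Classical in
theorem prd : PrdStmt := by
  intro ι κ A _ _ X b K blk y hu hX z hz
  have hX' : ∀ j ∈ K, ∏ α ∈ univ.filter (fun α => blk α = some j),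
      (Ideal.Quotient.mk b (y α)) = Ideal.Quotient.mk b X := by
    intro j hj
    rw [← map_prod]
    exact Ideal.Quotient.eq.2 (hX j hj)
  have h1 := iter (Ideal.Quotient.mk b X) blk (fun α => Ideal.Quotient.mk b (y α)) K hX'
    (fun I => Ideal.Quotient.mk b (z I))
  have h2 : (fun I : Finset ι => if (∀ j ∈ K, ∃ α ∈ I, blk α = some j) then
        ∑ K' ∈ K.powerset, (1 - Ideal.Quotient.mk b X) ^ K'.card *
          (Ideal.Quotient.mk b X) ^ (K.card - K'.card) *
          Ideal.Quotient.mk b (z (I.filter fun α => ∀ j ∈ K, j ∉ K' → blk α ≠ some j)) else 0) =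
      fun _ => 0 := by
    funext I
    by_cases hI : ∀ j ∈ K, ∃ α ∈ I, blk α = some j
    · rw [if_pos hI]
      have h3 := congrArg (Ideal.Quotient.mk b) (hz I hI)
      rw [map_sum, map_zero] at h3
      rw [← h3]
      apply sum_congr rfl
      intro K' _
      rw [map_mul, map_mul, map_pow, map_pow, map_sub, map_one]
    · rw [if_neg hI]
  rw [h2] at h1
  have h4 : FF (fun α => Ideal.Quotient.mk b (y α)) (fun _ : Finset ι => (0 : A ⧸ b)) = 0 := by
    unfold FF
    simp
  rw [h4] at h1
  have hu' : IsUnit ((1 - Ideal.Quotient.mk b X) ^ K.card) := by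
    apply IsUnit.pow
    have h5 := hu.map (Ideal.Quotient.mk b)
    rw [map_sub, map_one] at h5
    exact h5
  have h6 : FF (fun α => Ideal.Quotient.mk b (y α)) (fun I => Ideal.Quotient.mk b (z I)) = 0 :=
    (hu'.mul_right_eq_zero).1 h1
  rw [← Ideal.Quotient.eq_zero_iff_mem, ← h6]
  unfold FF wt
  rw [map_sum]
  apply sum_congr rfl
  intro I _
  rw [map_mul, map_mul, map_prod, map_prod]
  congr 2

end Pool.Agent.GEN.H67
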