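import Pool.Agent.GEN.StmtsU

/-!
# Squad GEN, row RTO (helper67): the roots for Zariski general coefficients
-/

set_option autoImplicit false

namespace Pool.Agent.GEN.H67

open MvPolynomial Finset Pool.Agent.Helper6_Mono Pool.Agent.Helper30_Simp
  Pool.Agent.Helper30_Simp2 Pool.Agent.GEN

theorem act_C {σ A : Type} [CommRing A] (l : A) (w : MvPolynomial σ A) (a : A) :
    act l w (C a) = C a * w := by
  have h1 : (C a : Sm σ A) = monomial 0 a := rfl
  have hx : xp (0 : SY σ →₀ ℕ) = 0 := by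
    ext i
    rfl
  have hd : dp (0 : SY σ →₀ ℕ) = 0 := by
    ext i
    rfl
  have hE : dE (0 : σ →₀ ℕ) w = w := by
    unfold dE dWordR
    rw [map_zero, Multiset.toList_zero]
    rfl
  rw [h1, act_monomial, hx, hd, hE, Finsupp.zero_apply, pow_zero]
  have h2 : (monomial (0 : σ →₀ ℕ) (1 : A)) = 1 := rfl
  rw [h2, C_1, mul_one, one_mul]

theorem rto (hV : RvlStmt) (hL : SylStmt) (hS : SemStmt) : RtoStmt := by
  intro σ _ M κ N B hN hge hBM hBne hBeq hind hflat hdir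
  obtain ⟨s₀, hs₀⟩ : ∃ s₀ : ℚ, s₀ = -(((∑ i, κ i : ℕ) : ℚ) / (N : ℕ)) := ⟨_, rfl⟩
  have hJ : ∀ a : MvPolynomial M ℚ,
      C a ∈ JB (fgen M) (algebraMap ℚ (MvPolynomial M ℚ) s₀) → a = 0 := by
    intro a ha
    obtain ⟨r, q, n₀, h⟩ := ha
    obtain ⟨P, hP⟩ := hL σ (MvPolynomial M ℚ) r
    obtain ⟨Q, hQ⟩ := hL σ (MvPolynomial M ℚ) q
    refine hV σ M κ N B hN hge hBM hBne hBeq hind hflat hdir s₀ hs₀ a P Q ⟨n₀, fun n hn => ?_⟩
    have h1 := h n hn
    rw [act_C, hP, hQ, smul_eq_C_mul] at h1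
    rw [h1, add_comm]
  obtain ⟨H, hH0, hH⟩ := hS σ (MvPolynomial M ℚ) (fgen M) s₀ hJ
  refine ⟨H, hH0, fun F hF hFH => ?_⟩
  obtain ⟨φ, hφ⟩ : ∃ φ : MvPolynomial M ℚ →+* ℂ,
      ∀ p, φ p = aeval (fun α : M => F.coeff (α : σ →₀ ℕ)) p :=
    ⟨(aeval (fun α : M => F.coeff (α : σ →₀ ℕ))).toRingHom, fun _ => rfl⟩
  have hmap : map φ (fgen M) = F := by
    unfold fgen
    rw [map_sum]
    have h1 : ∀ α : M, map φ (monomial (α : σ →₀ ℕ) (X α)) =
        monomial (α : σ →₀ ℕ) (F.coeff (α : σ →₀ ℕ)) := by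
      intro α
      rw [map_monomial, hφ, aeval_X]
    rw [Finset.sum_congr rfl fun α _ => h1 α]
    rw [Finset.sum_coe_sort M fun α => monomial α (F.coeff α), ← hF]
    exact support_sum_monomial_coeff F
  have hF0 : map φ (fgen M) ≠ 0 := by
    rw [hmap]
    intro h0
    rw [h0, support_zero] at hF
    obtain ⟨β, hβ⟩ := hBne
    have h1 := hBM hβ
    rw [← hF] at h1
    exact Finset.notMem_empty _ h1
  have hφH : φ H ≠ 0 := by
    rw [hφ]
    exact hFH
  have hroot := hH φ hφH hF0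
  rw [hmap] at hroot
  have hs : ((s₀ : ℚ) : ℂ) = -(((∑ i, κ i : ℕ) : ℂ) / (N : ℕ)) := by
    rw [hs₀]
    push_cast
    rfl
  have hI : Ideal.span {b | LocalBS F b} ≤
      RingHom.ker (Polynomial.evalRingHom (-(((∑ i, κ i : ℕ) : ℂ) / (N : ℕ)))) := by
    rw [Ideal.span_le]
    intro b hb
    rw [SetLike.mem_coe, RingHom.mem_ker, Polynomial.coe_evalRingHom, ← hs]
    exact hroot b hb
  have h3 := hI (Submodule.IsPrincipal.generator_mem (Ideal.span {b | LocalBS F b}))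
  rw [RingHom.mem_ker, Polynomial.coe_evalRingHom] at h3
  rw [bfun, normalize_apply, Polynomial.eval_mul, h3, zero_mul]

end Pool.Agent.GEN.H67
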