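import Pool.Agent.GEN.StmtsT

/-!
# Squad GEN, row TSD (helper67): smoothness in the torus descends
-/

set_option autoImplicit false

namespace Pool.Agent.GEN.H67

open MvPolynomial Pool.Agent.GEN Pool.Agent.Helper30_Simp

theorem tsd : TsdStmt := by
  intro k K _ _ _ σ _ g hg
  classical
  obtain ⟨ρ, hρ⟩ := LinearMap.exists_leftInverse_of_injective (Algebra.linearMap k K)
    (LinearMap.ker_eq_bot.2 (algebraMap k K).injective)
  have hρ1 : ∀ (c : K) (a : k), ρ (c * algebraMap k K a) = ρ c * a := by
    intro c a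
    rw [mul_comm, ← Algebra.smul_def, map_smul, smul_eq_mul, mul_comm]
  have hρ2 : ∀ a : k, ρ (algebraMap k K a) = a := by
    intro a
    have h1 := LinearMap.congr_fun hρ a
    simpa using h1
  obtain ⟨R, hR⟩ : ∃ R : MvPolynomial σ K → MvPolynomial σ k,
      ∀ q α, (R q).coeff α = ρ (q.coeff α) := by
    refine ⟨fun q => ∑ α ∈ q.support, monomial α (ρ (q.coeff α)), fun q α => ?_⟩
    rw [coeff_sum]
    simp only [coeff_monomial]
    rw [Finset.sum_ite_eq']
    by_cases h : α ∈ q.support
    · rw [if_pos h]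
    · rw [if_neg h, notMem_support_iff.1 h, map_zero]
  have hRadd : ∀ p q, R (p + q) = R p + R q := by
    intro p q
    ext α
    rw [coeff_add, hR, hR, hR, coeff_add, map_add]
  have hRz : R 0 = 0 := by
    ext α
    rw [hR, coeff_zero, coeff_zero, map_zero]
  have hRm : ∀ (b : MvPolynomial σ K) (s : MvPolynomial σ k),
      R (b * map (algebraMap k K) s) = R b * s := by
    intro b s
    ext α
    rw [hR, coeff_mul, coeff_mul, map_sum]
    refine Finset.sum_congr rfl fun x _ => ?_
    rw [coeff_map, hρ1, hR]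
  have hR1 : ∀ s : MvPolynomial σ k, R (map (algebraMap k K) s) = s := by
    intro s
    ext α
    rw [hR, coeff_map, hρ2]
  obtain ⟨I, hI⟩ : ∃ I : Ideal (MvPolynomial σ k),
      I = Ideal.span ({g} ∪ Set.range fun j => pderiv j g) := ⟨_, rfl⟩
  have key : ∀ x ∈ Ideal.span ({map (algebraMap k K) g} ∪
      Set.range fun j => pderiv j (map (algebraMap k K) g)),
      ∀ b : MvPolynomial σ K, R (b * x) ∈ I := by
    intro x hx
    refine Submodule.span_induction (p := fun x _ => ∀ b : MvPolynomial σ K, R (b * x) ∈ I)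
      ?_ ?_ ?_ ?_ hx
    · intro y hy b
      have h1 : ∃ s ∈ ({g} ∪ Set.range fun j => pderiv j g : Set (MvPolynomial σ k)),
          y = map (algebraMap k K) s := by
        rcases hy with hy | ⟨j, hj⟩
        · exact ⟨g, Or.inl rfl, hy⟩
        · refine ⟨pderiv j g, Or.inr ⟨j, rfl⟩, ?_⟩
          rw [← hj]
          exact pderiv_map
      obtain ⟨s, hs, hys⟩ := h1
      rw [hys, hRm, hI]
      exact Ideal.mul_mem_left _ _ (Ideal.subset_span hs)
    · intro b
      rw [mul_zero, hRz]
      exact I.zero_mem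
    · intro y z _ _ hy hz b
      rw [mul_add, hRadd]
      exact I.add_mem (hy b) (hz b)
    · intro a y _ hy b
      rw [smul_eq_mul, ← mul_assoc]
      exact hy (b * a)
  obtain ⟨n, hn⟩ := hg
  refine ⟨n, ?_⟩
  have h1 := key _ hn 1
  have h2 : (∏ i, (X i : MvPolynomial σ K)) ^ n =
      map (algebraMap k K) ((∏ i, (X i : MvPolynomial σ k)) ^ n) := by
    rw [map_pow, map_prod]
    simp only [map_X]
  rw [one_mul, h2, hR1, hI] at h1
  exact h1

end Pool.Agent.GEN.H67
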